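import Mathlib

set_option autoImplicit false

/-!
# Elite primes: elementary part
-/

namespace Pool.Agent.Helper18.EL

open Finset

/-- Fermat numbers modulo `p` are purely periodic from the index `r` on, if `2^r` exactly
divides `p - 1`. -/
theorem fermat_periodic {p r h : ℕ} (hp : p.Prime) (hp2 : p ≠ 2) (hph : p - 1 = 2 ^ r * h)
    (hodd : Odd h) {m : ℕ} (hm : r ≤ m) (M : ℕ) :
    ∃ m', M < m' ∧ ((2 ^ 2 ^ m' + 1 : ℕ) : ZMod p) = ((2 ^ 2 ^ m + 1 : ℕ) : ZMod p) := by
  have := Fact.mk hp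
  have h20 : (2 : ZMod p) ≠ 0 := by
    intro h0
    have : ((2 : ℕ) : ZMod p) = 0 := by exact_mod_cast h0
    rw [ZMod.natCast_eq_zero_iff] at this
    exact hp2 ((Nat.prime_dvd_prime_iff_eq hp Nat.prime_two).1 this)
  have hg : ((2 : ZMod p) ^ 2 ^ m) ^ h = 1 := by
    obtain ⟨j, rfl⟩ := Nat.exists_eq_add_of_le hm
    rw [← pow_mul, pow_add, mul_right_comm, ← hph, pow_mul, ZMod.pow_card_sub_one_eq_one h20,
      one_pow]
  have hcop : Nat.Coprime 2 h := hodd.coprime_two_left
  have hk := Nat.ModEq.pow_totient hcop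
  have hpos : 0 < h.totient := Nat.totient_pos.2 hodd.pos
  refine ⟨m + h.totient * (M + 1), ?_, ?_⟩
  · have : M + 1 ≤ h.totient * (M + 1) := Nat.le_mul_of_pos_left _ hpos
    omega
  · have h1 : 2 ^ (h.totient * (M + 1)) ≡ 1 [MOD h] := by
      have := hk.pow (M + 1)
      rwa [one_pow, ← pow_mul] at this
    have h2 : ((2 : ZMod p) ^ 2 ^ m) ^ 2 ^ (h.totient * (M + 1)) = ((2 : ZMod p) ^ 2 ^ m) ^ 1 :=
      pow_eq_pow_of_modEq h1 hg
    rw [← pow_mul, ← pow_add, pow_one] at h2
    push_cast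
    rw [h2]

theorem jacobi_neg {p m : ℕ} (hp : p.Prime) (hp2 : p ≠ 2) (hm : 1 ≤ m)
    (h : ¬ IsSquare ((2 ^ 2 ^ m + 1 : ℕ) : ZMod p)) :
    jacobiSym (p : ℤ) (Nat.fermatNumber m) = -1 := by
  have := Fact.mk hp
  have h1 : legendreSym p ((Nat.fermatNumber m : ℕ) : ℤ) = -1 := by
    rw [legendreSym.eq_neg_one_iff']
    exact h
  rw [jacobiSym.legendreSym.to_jacobiSym] at h1
  have h4 : Nat.fermatNumber m % 4 = 1 := by
    obtain ⟨j, rfl⟩ := Nat.exists_eq_add_of_le hm
    have : 2 ^ 2 ^ (1 + j) = 4 * 2 ^ (2 ^ (1 + j) - 2) := by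
      have h5 : 2 ≤ 2 ^ (1 + j) := by
        calc 2 = 2 ^ 1 := rfl
          _ ≤ 2 ^ (1 + j) := Nat.pow_le_pow_right (by norm_num) (by omega)
      calc 2 ^ 2 ^ (1 + j) = 2 ^ (2 + (2 ^ (1 + j) - 2)) := by
            congr 1
            omega
        _ = 4 * 2 ^ (2 ^ (1 + j) - 2) := by rw [pow_add]; norm_num
    unfold Nat.fermatNumber
    omega
  rw [← jacobiSym.quadratic_reciprocity_one_mod_four h4 (hp.odd_of_ne_two hp2)]
  exact h1

theorem gcd_one {q : ℕ} (hq : 1 < q) {c : ℕ} (h : jacobiSym (c : ℤ) q ≠ 0) :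
    Nat.Coprime q c := by
  have hq0 : q ≠ 0 := by omega
  by_contra hc
  apply h
  rw [jacobiSym.eq_zero_iff]
  refine ⟨hq0, ?_⟩
  rw [Int.gcd_natCast_natCast]
  intro h1
  exact hc (Nat.coprime_comm.1 h1)

/-- classes with Jacobi symbol `-1` -/
noncomputable def A (q : ℕ) : Finset ℕ := (range q).filter (fun c => jacobiSym (c : ℤ) q = -1)

theorem two_card_A {q : ℕ} (hq : 1 < q) : 2 * (A q).card ≤ q.totient := by
  classical
  by_cases hne : (A q).Nonempty
  · obtain ⟨b, hb⟩ := hne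
    have hb2 := (mem_filter.1 hb).2
    set B : Finset ℕ := (range q).filter (fun c : ℕ => jacobiSym (c : ℤ) q = 1) with hB
    have hcopb : Nat.Coprime q b := gcd_one hq (by rw [hb2]; norm_num)
    have h1 : (A q).card ≤ B.card := by
      refine Finset.card_le_card_of_injOn (fun c => (b * c) % q) ?_ ?_
      · intro c hc
        have hc' := (mem_filter.1 hc).2
        refine Finset.mem_coe.2 (mem_filter.2 ⟨mem_range.2 (Nat.mod_lt _ (by omega)), ?_⟩)
        have : jacobiSym (((b * c) % q : ℕ) : ℤ) q = jacobiSym ((b * c : ℕ) : ℤ) q := by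
          rw [jacobiSym.mod_left ((b * c : ℕ) : ℤ) q]
          push_cast
          rfl
        rw [this]
        push_cast
        rw [jacobiSym.mul_left, hb2, hc']
        norm_num
      · intro c hc d hd hcd
        have hc1 := mem_range.1 (mem_filter.1 hc).1
        have hd1 := mem_range.1 (mem_filter.1 hd).1
        have h2 : b * c ≡ b * d [MOD q] := hcd
        have h3 := Nat.ModEq.cancel_left_of_coprime hcopb h2
        exact Nat.ModEq.eq_of_lt_of_lt h3 hc1 hd1
    have h2 : (A q).card + B.card ≤ q.totient := by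
      have hdisj : Disjoint (A q) B := by
        rw [Finset.disjoint_left]
        intro c hc hc'
        have e1 := (mem_filter.1 hc).2
        have e2 := (mem_filter.1 hc').2
        rw [e1] at e2
        norm_num at e2
      rw [← Finset.card_union_of_disjoint hdisj, Nat.totient_eq_card_coprime]
      refine Finset.card_le_card ?_
      intro c hc
      have hcr : c < q ∧ jacobiSym (c : ℤ) q ≠ 0 := by
        rcases mem_union.1 hc with h | h
        · exact ⟨mem_range.1 (mem_filter.1 h).1, by rw [(mem_filter.1 h).2]; norm_num⟩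
        · exact ⟨mem_range.1 (mem_filter.1 h).1, by rw [(mem_filter.1 h).2]; norm_num⟩
      exact mem_filter.2 ⟨mem_range.2 hcr.1, gcd_one hq hcr.2⟩
    omega
  · rw [Finset.not_nonempty_iff_eq_empty] at hne
    rw [hne]
    simp

end Pool.Agent.Helper18.EL
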