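import Pool.Agent.Helper18.EL.Core
import Pool.Agent.Helper45.NX2.BtClass

set_option autoImplicit false

/-!
# Elite primes: residue classes and the sieve bound
-/

namespace Pool.Agent.Helper18.EL

open Finset

/-- product of `j` consecutive Fermat numbers, starting with index `r` -/
def MF (r j : ℕ) : ℕ := ∏ i ∈ range j, Nat.fermatNumber (r + i)

theorem MF_succ (r j : ℕ) : MF r (j + 1) = MF r j * Nat.fermatNumber (r + j) := by
  unfold MF
  rw [prod_range_succ]

theorem MF_pos (r j : ℕ) : 0 < MF r j :=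
  Finset.prod_pos fun i _ => lt_of_lt_of_le (by norm_num) (Nat.three_le_fermatNumber _)

theorem MF_cop (r j : ℕ) : Nat.Coprime (MF r j) (Nat.fermatNumber (r + j)) := by
  unfold MF
  refine Nat.Coprime.prod_left fun i hi => ?_
  refine Nat.coprime_fermatNumber_fermatNumber ?_
  have := mem_range.1 hi
  omega

theorem MF_odd (r j : ℕ) : Odd (MF r j) := by
  induction j with
  | zero => exact odd_one
  | succ j ih => rw [MF_succ]; exact ih.mul (Nat.odd_fermatNumber _)

theorem dvd_MF (r j : ℕ) {i : ℕ} (hi : i < j) : Nat.fermatNumber (r + i) ∣ MF r j :=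
  Finset.dvd_prod_of_mem _ (mem_range.2 hi)

/-- admissible classes modulo `MF r j` -/
noncomputable def SF (r j : ℕ) : Finset ℕ :=
  (range (MF r j)).filter (fun c => ∀ i < j, jacobiSym (c : ℤ) (Nat.fermatNumber (r + i)) = -1)

theorem jac_mod {c M q : ℕ} (h : q ∣ M) :
    jacobiSym ((c % M : ℕ) : ℤ) q = jacobiSym (c : ℤ) q := by
  apply jacobiSym.mod_left'
  have := Nat.mod_mod_of_dvd c h
  exact_mod_cast this

theorem card_SF (r j : ℕ) : 2 ^ j * (SF r j).card ≤ (MF r j).totient := by
  induction j with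
  | zero =>
    have h1 : (SF r 0).card ≤ 1 := by
      unfold SF
      refine (Finset.card_filter_le _ _).trans ?_
      rw [card_range]
      exact le_refl _
    have h2 : (MF r 0).totient = 1 := by
      simp [MF]
    rw [h2]
    simpa using h1
  | succ j ih =>
    have hcop := MF_cop r j
    have h1 : (SF r (j + 1)).card ≤ (SF r j).card * (A (Nat.fermatNumber (r + j))).card := by
      rw [← Finset.card_product]
      refine Finset.card_le_card_of_injOn
        (fun c => (c % MF r j, c % Nat.fermatNumber (r + j))) ?_ ?_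
      · intro c hc
        have hc' := (mem_filter.1 hc).2
        refine Finset.mem_coe.2 (mem_product.2 ⟨mem_filter.2 ⟨?_, ?_⟩, mem_filter.2 ⟨?_, ?_⟩⟩)
        · exact mem_range.2 (Nat.mod_lt _ (MF_pos r j))
        · intro i hi
          show jacobiSym ((c % MF r j : ℕ) : ℤ) _ = -1
          rw [jac_mod (dvd_MF r j hi)]
          exact hc' i (by omega)
        · exact mem_range.2 (Nat.mod_lt _ (lt_of_lt_of_le (by norm_num)
            (Nat.three_le_fermatNumber _)))
        · show jacobiSym ((c % Nat.fermatNumber (r + j) : ℕ) : ℤ) _ = -1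
          rw [jac_mod (dvd_refl _)]
          exact hc' j (by omega)
      · intro c hc d hd hcd
        have hc1 := mem_range.1 (mem_filter.1 hc).1
        have hd1 := mem_range.1 (mem_filter.1 hd).1
        rw [MF_succ] at hc1 hd1
        have e := Prod.mk.inj hcd
        have h2 : c ≡ d [MOD MF r j * Nat.fermatNumber (r + j)] :=
          (Nat.modEq_and_modEq_iff_modEq_mul hcop).1 ⟨e.1, e.2⟩
        exact Nat.ModEq.eq_of_lt_of_lt h2 hc1 hd1
    have h2 := two_card_A (q := Nat.fermatNumber (r + j))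
      (lt_of_lt_of_le (by norm_num) (Nat.three_le_fermatNumber _))
    rw [MF_succ, Nat.totient_mul hcop]
    calc 2 ^ (j + 1) * (SF r (j + 1)).card
        ≤ 2 ^ (j + 1) * ((SF r j).card * (A (Nat.fermatNumber (r + j))).card) :=
          Nat.mul_le_mul_left _ h1
      _ = (2 ^ j * (SF r j).card) * (2 * (A (Nat.fermatNumber (r + j))).card) := by ring
      _ ≤ _ := Nat.mul_le_mul ih h2

/-- the full modulus -/
def Md (r j : ℕ) : ℕ := 2 ^ (r + 1) * MF r j

theorem cop2 (r j : ℕ) : Nat.Coprime (2 ^ (r + 1)) (MF r j) :=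
  Nat.Coprime.pow_left _ (MF_odd r j).coprime_two_left

theorem Md_pos (r j : ℕ) : 0 < Md r j := Nat.mul_pos (by positivity) (MF_pos r j)

/-- admissible classes modulo `Md r j` -/
noncomputable def SD (r j : ℕ) : Finset ℕ :=
  (range (Md r j)).filter (fun c => c % 2 ^ (r + 1) = 2 ^ r + 1 ∧ c % MF r j ∈ SF r j)

theorem card_SD (r j : ℕ) : 2 ^ (r + j) * (SD r j).card ≤ (Md r j).totient := by
  have h1 : (SD r j).card ≤ (SF r j).card := by
    refine Finset.card_le_card_of_injOn (fun c => c % MF r j) ?_ ?_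
    · intro c hc
      exact (mem_filter.1 hc).2.2
    · intro c hc d hd hcd
      have hc1 := mem_range.1 (mem_filter.1 hc).1
      have hd1 := mem_range.1 (mem_filter.1 hd).1
      have e1 : c ≡ d [MOD 2 ^ (r + 1)] := by
        show c % _ = d % _
        rw [(mem_filter.1 hc).2.1, (mem_filter.1 hd).2.1]
      have h2 : c ≡ d [MOD 2 ^ (r + 1) * MF r j] :=
        (Nat.modEq_and_modEq_iff_modEq_mul (cop2 r j)).1 ⟨e1, hcd⟩
      exact Nat.ModEq.eq_of_lt_of_lt h2 hc1 hd1
  unfold Md
  rw [Nat.totient_mul (cop2 r j), Nat.totient_prime_pow_succ Nat.prime_two]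
  calc 2 ^ (r + j) * (SD r j).card ≤ 2 ^ (r + j) * (SF r j).card := Nat.mul_le_mul_left _ h1
    _ = 2 ^ r * (2 ^ j * (SF r j).card) := by ring
    _ ≤ 2 ^ r * (MF r j).totient := Nat.mul_le_mul_left _ (card_SF r j)
    _ = _ := by norm_num

theorem Md_le {r T : ℕ} (hr : r ≤ T) : Md r (T + 1 - r) ≤ 2 ^ 2 ^ (T + 2) := by
  have h1 : MF r (T + 1 - r) ≤ ∏ k ∈ range (T + 1), Nat.fermatNumber k := by
    unfold MF
    rw [← Finset.prod_Ico_eq_prod_range]
    refine Finset.prod_le_prod_of_subset_of_one_le' ?_ ?_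
    · intro k hk
      exact mem_range.2 (mem_Ico.1 hk).2
    · intro k _ _
      exact le_trans (by norm_num) (Nat.three_le_fermatNumber k)
  rw [Nat.prod_fermatNumber] at h1
  have h2 : MF r (T + 1 - r) ≤ 2 ^ 2 ^ (T + 1) := by
    refine h1.trans ?_
    have h5 : Nat.fermatNumber (T + 1) = 2 ^ 2 ^ (T + 1) + 1 := rfl
    rw [h5]
    generalize (2 ^ 2 ^ (T + 1) : ℕ) = z
    omega
  have h3 : r + 1 ≤ 2 ^ (T + 1) := by
    have := (Nat.lt_two_pow_self (n := T + 1))
    omega
  calc Md r (T + 1 - r) ≤ 2 ^ 2 ^ (T + 1) * 2 ^ 2 ^ (T + 1) :=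
        Nat.mul_le_mul (Nat.pow_le_pow_right (by norm_num) h3) h2
    _ = 2 ^ 2 ^ (T + 2) := by rw [← pow_add]; congr 1; ring

end Pool.Agent.Helper18.EL
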