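import Pool.Agent.Helper18.EL.Count

set_option autoImplicit false

/-!
# Elite primes: the union over the residue classes
-/

namespace Pool.Agent.Helper18.EL

open Finset

/-- `p` is an elite prime -/
def Elite (p : ℕ) : Prop :=
  p.Prime ∧ ∃ M, ∀ m, M < m → ¬ IsSquare ((2 ^ 2 ^ m + 1 : ℕ) : ZMod p)

theorem elite_ne_two {p : ℕ} (h : Elite p) : p ≠ 2 := by
  rintro rfl
  obtain ⟨_, M, hM⟩ := h
  refine hM (M + 1) (by omega) ?_
  have h1 : ((2 ^ 2 ^ (M + 1) + 1 : ℕ) : ZMod 2) = 1 := by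
    have h2 : (2 ^ 2 ^ (M + 1) + 1 : ℕ) % 2 = 1 := by
      have : 2 ∣ 2 ^ 2 ^ (M + 1) := dvd_pow_self 2 (by positivity)
      omega
    have h3 : ((2 ^ 2 ^ (M + 1) + 1 : ℕ) : ZMod 2) = ((1 : ℕ) : ZMod 2) :=
      (ZMod.natCast_eq_natCast_iff _ _ _).2 h2
    rw [h3, Nat.cast_one]
  rw [h1]
  exact IsSquare.one

theorem elite_jac {p r h : ℕ} (he : Elite p) (hph : p - 1 = 2 ^ r * h) (hodd : Odd h) {m : ℕ}
    (hm : r ≤ m) (hm1 : 1 ≤ m) : jacobiSym (p : ℤ) (Nat.fermatNumber m) = -1 := by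
  have hp2 := elite_ne_two he
  obtain ⟨hp, M, hM⟩ := he
  obtain ⟨m', h1, h2⟩ := fermat_periodic hp hp2 hph hodd hm M
  refine jacobi_neg hp hp2 hm1 ?_
  rw [← h2]
  exact hM m' h1

theorem elite_mem {p r h j : ℕ} (he : Elite p) (hr : 1 ≤ r) (hph : p - 1 = 2 ^ r * h)
    (hodd : Odd h) : p % Md r j ∈ SD r j ∧ Nat.Coprime p (Md r j) := by
  have hp := he.1
  have hp2 := elite_ne_two he
  have hJ : ∀ i, jacobiSym (p : ℤ) (Nat.fermatNumber (r + i)) = -1 := fun i =>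
    elite_jac he hph hodd (by omega) (by omega)
  constructor
  · refine mem_filter.2 ⟨mem_range.2 (Nat.mod_lt _ (Md_pos r j)), ?_, ?_⟩
    · rw [Nat.mod_mod_of_dvd _ (Dvd.intro _ rfl : 2 ^ (r + 1) ∣ Md r j)]
      obtain ⟨t, rfl⟩ := hodd
      have h1 : p = (2 ^ r + 1) + 2 ^ (r + 1) * t := by
        have := hp.two_le
        have h3 : p = 2 ^ r * (2 * t + 1) + 1 := by omega
        rw [h3]
        ring
      rw [h1, Nat.add_mul_mod_self_left]
      refine Nat.mod_eq_of_lt ?_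
      have h4 : 2 ^ 1 ≤ 2 ^ r := Nat.pow_le_pow_right (by norm_num) hr
      rw [pow_succ]
      omega
    · rw [Nat.mod_mod_of_dvd _ (Dvd.intro_left _ rfl : MF r j ∣ Md r j)]
      refine mem_filter.2 ⟨mem_range.2 (Nat.mod_lt _ (MF_pos r j)), ?_⟩
      intro i hi
      rw [jac_mod (dvd_MF r j hi)]
      exact hJ i
  · refine Nat.Coprime.mul_right ?_ ?_
    · exact Nat.Coprime.pow_right _ ((Nat.coprime_primes hp Nat.prime_two).2 hp2)
    · unfold MF
      refine Nat.Coprime.prod_right fun i _ => ?_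
      refine Nat.Coprime.symm (gcd_one ?_ (by rw [hJ i]; norm_num))
      exact lt_of_lt_of_le (by norm_num) (Nat.three_le_fermatNumber _)

open Classical in
theorem class_le {C : ℝ} (hC : 0 < C) (hbt : ∀ a N M c : ℕ, 2 ≤ N → 1 ≤ M → M ^ 2 ≤ N →
    (((Ico a (a + N)).filter
      (fun p => p.Prime ∧ Nat.Coprime p M ∧ p ≡ c [MOD M])).card : ℝ) ≤
        C * N / (M.totient * Real.log N)) {x r j : ℕ} (hx : 2 ≤ x) (hr : 1 ≤ r)
    (hM : Md r j ^ 2 ≤ x) :
    (((Icc 1 x).filter (fun p => Elite p ∧ ∃ h, Odd h ∧ p - 1 = 2 ^ r * h)).card : ℝ) ≤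
      C * x / (2 ^ (r + j) * Real.log x) := by
  have hlog : 0 < Real.log x := Real.log_pos (by exact_mod_cast hx)
  have hphi : (0 : ℝ) < (Md r j).totient := by exact_mod_cast Nat.totient_pos.2 (Md_pos r j)
  have hsub : (Icc 1 x).filter (fun p => Elite p ∧ ∃ h, Odd h ∧ p - 1 = 2 ^ r * h) ⊆
      (SD r j).biUnion (fun c => (Ico 1 (1 + x)).filter
        (fun p => p.Prime ∧ Nat.Coprime p (Md r j) ∧ p ≡ c [MOD Md r j])) := by
    intro p hp
    obtain ⟨h1, he, h, hodd, hph⟩ := mem_filter.1 hp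
    have h2 := elite_mem (j := j) he hr hph hodd
    refine mem_biUnion.2 ⟨p % Md r j, h2.1, mem_filter.2 ⟨?_, he.1, h2.2, ?_⟩⟩
    · have := mem_Icc.1 h1
      exact mem_Ico.2 (by omega)
    · exact (Nat.mod_modEq p (Md r j)).symm
  have h2 : (((SD r j).biUnion (fun c => (Ico 1 (1 + x)).filter
        (fun p => p.Prime ∧ Nat.Coprime p (Md r j) ∧ p ≡ c [MOD Md r j]))).card : ℝ) ≤
      ∑ c ∈ SD r j, C * x / ((Md r j).totient * Real.log x) := by
    refine le_trans (Nat.cast_le.2 Finset.card_biUnion_le) ?_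
    push_cast
    exact Finset.sum_le_sum fun c _ => hbt 1 x (Md r j) c hx (Md_pos r j) hM
  refine le_trans (Nat.cast_le.2 (Finset.card_le_card hsub)) (h2.trans ?_)
  rw [Finset.sum_const, nsmul_eq_mul]
  have h3 : (2 : ℝ) ^ (r + j) * (SD r j).card ≤ (Md r j).totient := by
    exact_mod_cast card_SD r j
  rw [mul_div_assoc', div_le_div_iff₀ (by positivity) (by positivity)]
  have hx0 : (0 : ℝ) ≤ x := Nat.cast_nonneg x
  calc ((SD r j).card : ℝ) * (C * x) * (2 ^ (r + j) * Real.log x)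
      = (2 ^ (r + j) * (SD r j).card) * (C * x * Real.log x) := by ring
    _ ≤ (Md r j).totient * (C * x * Real.log x) :=
        mul_le_mul_of_nonneg_right h3 (by positivity)
    _ = _ := by ring

open Classical in
theorem big_le {C : ℝ} (hbt : ∀ a N M c : ℕ, 2 ≤ N → 1 ≤ M → M ^ 2 ≤ N →
    (((Ico a (a + N)).filter
      (fun p => p.Prime ∧ Nat.Coprime p M ∧ p ≡ c [MOD M])).card : ℝ) ≤
        C * N / (M.totient * Real.log N)) {x T : ℕ} (hx : 2 ≤ x)
    (hM : (2 ^ (T + 1)) ^ 2 ≤ x) :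
    (((Icc 1 x).filter (fun p => Elite p ∧ 2 ^ (T + 1) ∣ p - 1)).card : ℝ) ≤
      C * x / (2 ^ T * Real.log x) := by
  have h1 := hbt 1 x (2 ^ (T + 1)) 1 hx Nat.one_le_two_pow hM
  rw [Nat.totient_prime_pow_succ Nat.prime_two] at h1
  norm_num only at h1
  refine le_trans ?_ (h1.trans (le_of_eq ?_))
  · refine Nat.cast_le.2 (Finset.card_le_card ?_)
    intro p hp
    obtain ⟨h2, he, hd⟩ := mem_filter.1 hp
    have h3 := mem_Icc.1 h2
    refine mem_filter.2 ⟨mem_Ico.2 (by omega), he.1, ?_, ?_⟩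
    · exact Nat.Coprime.pow_right _ ((Nat.coprime_primes he.1 Nat.prime_two).2 (elite_ne_two he))
    · exact ((Nat.modEq_iff_dvd' h3.1).2 hd).symm
  · push_cast
    ring

open Classical in
theorem all_le {C : ℝ} (hC : 0 < C) (hbt : ∀ a N M c : ℕ, 2 ≤ N → 1 ≤ M → M ^ 2 ≤ N →
    (((Ico a (a + N)).filter
      (fun p => p.Prime ∧ Nat.Coprime p M ∧ p ≡ c [MOD M])).card : ℝ) ≤
        C * N / (M.totient * Real.log N)) {x T : ℕ} (hx : 2 ≤ x)
    (hT : 2 ^ 2 ^ (T + 3) ≤ x) :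
    (((Icc 1 x).filter Elite).card : ℝ) ≤
      C * x * (T + 2) / (2 ^ (T + 1) * Real.log x) := by
  have hlog : 0 < Real.log x := Real.log_pos (by exact_mod_cast hx)
  have hsub : (Icc 1 x).filter Elite ⊆
      ((Icc 1 T).biUnion (fun r => (Icc 1 x).filter
        (fun p => Elite p ∧ ∃ h, Odd h ∧ p - 1 = 2 ^ r * h))) ∪
      (Icc 1 x).filter (fun p => Elite p ∧ 2 ^ (T + 1) ∣ p - 1) := by
    intro p hp
    obtain ⟨h1, he⟩ := mem_filter.1 hp
    have hp2 := elite_ne_two he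
    have h3 := he.1.two_le
    obtain ⟨r, h, hodd, hph⟩ := Nat.exists_eq_two_pow_mul_odd (n := p - 1) (by omega)
    have hr : 1 ≤ r := by
      by_contra hr
      have h0 : r = 0 := by omega
      rw [h0, pow_zero, one_mul] at hph
      have h5 := he.1.odd_of_ne_two hp2
      rw [← hph] at hodd
      obtain ⟨a, ha⟩ := h5
      obtain ⟨b, hb⟩ := hodd
      omega
    by_cases hrT : r ≤ T
    · refine mem_union_left _ (mem_biUnion.2 ⟨r, mem_Icc.2 ⟨hr, hrT⟩, ?_⟩)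
      exact mem_filter.2 ⟨h1, he, h, hodd, hph⟩
    · refine mem_union_right _ (mem_filter.2 ⟨h1, he, ?_⟩)
      rw [hph]
      exact Dvd.dvd.mul_right (pow_dvd_pow 2 (by omega)) _
  have hMr : ∀ r ∈ Icc 1 T, Md r (T + 1 - r) ^ 2 ≤ x := by
    intro r hr
    have h1 := Md_le (mem_Icc.1 hr).2
    calc Md r (T + 1 - r) ^ 2 ≤ (2 ^ 2 ^ (T + 2)) ^ 2 := Nat.pow_le_pow_left h1 2
      _ = 2 ^ 2 ^ (T + 3) := by rw [← pow_mul]; congr 1
      _ ≤ x := hT
  have hM2 : (2 ^ (T + 1)) ^ 2 ≤ x := by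
    refine le_trans ?_ hT
    rw [← pow_mul]
    refine Nat.pow_le_pow_right (by norm_num) ?_
    have h5 : T + 3 < 2 ^ (T + 3) := Nat.lt_two_pow_self
    have h6 : 2 ^ (T + 3) = 4 * 2 ^ (T + 1) := by ring
    have h7 : T + 1 < 2 ^ (T + 1) := Nat.lt_two_pow_self
    omega
  have h1 : (((Icc 1 x).filter Elite).card : ℝ) ≤
      ∑ r ∈ Icc 1 T, (((Icc 1 x).filter
        (fun p => Elite p ∧ ∃ h, Odd h ∧ p - 1 = 2 ^ r * h)).card : ℝ) +
      (((Icc 1 x).filter (fun p => Elite p ∧ 2 ^ (T + 1) ∣ p - 1)).card : ℝ) := by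
    have h2 := (Finset.card_le_card hsub).trans ((Finset.card_union_le _ _).trans
      (Nat.add_le_add_right Finset.card_biUnion_le _))
    exact_mod_cast h2
  have h2 : ∑ r ∈ Icc 1 T, (((Icc 1 x).filter
        (fun p => Elite p ∧ ∃ h, Odd h ∧ p - 1 = 2 ^ r * h)).card : ℝ) ≤
      ∑ r ∈ Icc 1 T, C * x / (2 ^ (T + 1) * Real.log x) := by
    refine Finset.sum_le_sum fun r hr => ?_
    have h3 := class_le hC hbt hx (mem_Icc.1 hr).1 (hMr r hr)
    have h4 : r + (T + 1 - r) = T + 1 := by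
      have := (mem_Icc.1 hr).2
      omega
    rwa [h4] at h3
  rw [Finset.sum_const, Nat.card_Icc, nsmul_eq_mul, Nat.add_sub_cancel] at h2
  have h3 := big_le hbt hx hM2
  refine h1.trans ((add_le_add h2 h3).trans (le_of_eq ?_))
  have hl := hlog.ne'
  field_simp
  ring

end Pool.Agent.Helper18.EL
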